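import Pool.Agent.MldAcc.Recur

/-!
# The core of the ascending chain condition

Everything happens in one simplicial cone, the positive orthant of `ℝ^d`.
-/

namespace MldAcc

open Filter Topology Finset

/-! ### well-quasi-orders and ultrafilters -/

/-- A sequence built from a property which holds for most natural numbers. -/
theorem exists_seq (U : Ultrafilter ℕ) (P : ℕ → Prop) (r : ℕ → ℕ → Prop)
    (hP : ∀ᶠ k in (U : Filter ℕ), P k)
    (hr : ∀ k, P k → ∀ᶠ i in (U : Filter ℕ), r k i) :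
    ∃ f : ℕ → ℕ, (∀ n, P (f n)) ∧ ∀ m n, m < n → r (f m) (f n) := by
  apply exists_seq_of_forall_finset_exists P r
  intro s hs
  have h1 : ∀ᶠ i in (U : Filter ℕ), ∀ x ∈ s, r x i := by
    rw [Filter.eventually_all_finset]
    exact fun x hx => hr x (hs x hx)
  obtain ⟨i, hi⟩ := (hP.and h1).exists
  exact ⟨i, hi⟩

/-- In a well-ordered set most elements of a sequence are below most of the others. -/
theorem wf_ultra (U : Ultrafilter ℕ) {S : Set ℝ} (hS : S.IsWF) (x : ℕ → ℝ) (hx : ∀ k, x k ∈ S) :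
    ∀ᶠ k in (U : Filter ℕ), ∀ᶠ i in (U : Filter ℕ), x k ≤ x i := by
  by_contra hcon
  rw [← Ultrafilter.eventually_not] at hcon
  obtain ⟨f, hf, hr⟩ := exists_seq U (fun k => ¬ ∀ᶠ i in (U : Filter ℕ), x k ≤ x i)
    (fun k i => ¬ x k ≤ x i) hcon (fun k hk => by
      rw [← Ultrafilter.eventually_not] at hk
      exact hk)
  obtain ⟨m, n, hmn, h⟩ := hS.isPWO.exists_lt (f := fun n => x (f n)) (fun n => hx _)
  exact hr m n hmn h

/-! ### monomial ideals -/

variable {d : ℕ}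

/-- The order function of a monomial ideal, given by the exponents of its generators. -/
noncomputable def ordA (A : Set (Fin d → ℕ)) (y : Fin d → ℝ) : ℝ :=
  sInf ((fun a : Fin d → ℕ => ∑ l, (a l : ℝ) * y l) '' A)

theorem lin_nonneg {y : Fin d → ℝ} (hy : ∀ l, 0 ≤ y l) (a : Fin d → ℕ) :
    0 ≤ ∑ l, (a l : ℝ) * y l :=
  sum_nonneg fun l _ => mul_nonneg (Nat.cast_nonneg _) (hy l)

theorem bdd (A : Set (Fin d → ℕ)) {y : Fin d → ℝ} (hy : ∀ l, 0 ≤ y l) :
    BddBelow ((fun a : Fin d → ℕ => ∑ l, (a l : ℝ) * y l) '' A) := by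
  refine ⟨0, ?_⟩
  rintro _ ⟨a, _, rfl⟩
  exact lin_nonneg hy a

theorem ordA_le {A : Set (Fin d → ℕ)} {y : Fin d → ℝ} (hy : ∀ l, 0 ≤ y l) {a b : Fin d → ℕ}
    (ha : a ∈ A) (hab : a ≤ b) : ordA A y ≤ ∑ l, (b l : ℝ) * y l := by
  refine (csInf_le (bdd A hy) ⟨a, ha, rfl⟩).trans ?_
  exact sum_le_sum fun l _ => mul_le_mul_of_nonneg_right (by exact_mod_cast hab l) (hy l)

theorem le_ordA {A : Set (Fin d → ℕ)} (hA : A.Nonempty) {y : Fin d → ℝ} {c : ℝ}
    (h : ∀ a ∈ A, c ≤ ∑ l, (a l : ℝ) * y l) : c ≤ ordA A y := by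
  apply le_csInf (hA.image _)
  rintro _ ⟨a, ha, rfl⟩
  exact h a ha

theorem ordA_nonneg {A : Set (Fin d → ℕ)} (hA : A.Nonempty) {y : Fin d → ℝ} (hy : ∀ l, 0 ≤ y l) :
    0 ≤ ordA A y :=
  le_ordA hA fun a _ => lin_nonneg hy a

theorem exists_lt_of_ordA_lt {A : Set (Fin d → ℕ)} (hA : A.Nonempty) {y : Fin d → ℝ} {c : ℝ}
    (h : ordA A y < c) : ∃ a ∈ A, ∑ l, (a l : ℝ) * y l < c := by
  obtain ⟨_, ⟨a, ha, rfl⟩, h2⟩ := exists_lt_of_csInf_lt (hA.image _) h
  exact ⟨a, ha, h2⟩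

/-- Most of the ideals of a sequence contain the ideal of all monomials which belong to most
members of the sequence. -/
theorem limit_ideal (U : Ultrafilter ℕ) (A : ℕ → Set (Fin d → ℕ)) :
    ∀ᶠ k in (U : Filter ℕ), ∀ a : Fin d → ℕ, (∀ᶠ i in (U : Filter ℕ), ∃ b ∈ A i, b ≤ a) →
      ∃ b ∈ A k, b ≤ a := by
  by_contra hcon
  rw [← Ultrafilter.eventually_not] at hcon
  have h1 : ∀ᶠ k in (U : Filter ℕ), ∃ a : Fin d → ℕ,
      (∀ᶠ i in (U : Filter ℕ), ∃ b ∈ A i, b ≤ a) ∧ ¬ ∃ b ∈ A k, b ≤ a := by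
    filter_upwards [hcon] with k hk
    by_contra h
    apply hk
    intro a ha
    by_contra h2
    exact h ⟨a, ha, h2⟩
  obtain ⟨a, ha⟩ := h1.choice
  obtain ⟨f, hf, hr⟩ := exists_seq U
    (fun k => (∀ᶠ i in (U : Filter ℕ), ∃ b ∈ A i, b ≤ a k) ∧ ¬ ∃ b ∈ A k, b ≤ a k)
    (fun k i => ∃ b ∈ A i, b ≤ a k) ha (fun k hk => hk.1)
  obtain ⟨m, n, hmn, h⟩ := (Set.isPWO_of_wellQuasiOrderedLE
    (Set.univ : Set (Fin d → ℕ))).exists_lt (f := fun n => a (f n)) (fun n => Set.mem_univ _)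
  apply (hf n).2
  obtain ⟨b, hb, hb2⟩ := hr m n hmn
  exact ⟨b, hb, hb2.trans h⟩

/-- Comparison of the order functions on a box. -/
theorem ideal_ultra (U : Ultrafilter ℕ) (A : ℕ → Set (Fin d → ℕ)) (hA : ∀ k, (A k).Nonempty) :
    ∀ᶠ k in (U : Filter ℕ), ∀ η M : ℝ, 0 < η →
      ∀ᶠ i in (U : Filter ℕ), ∀ y : Fin d → ℝ, (∀ l, η ≤ y l) → (∀ l, y l ≤ M) →
        ordA (A k) y ≤ ordA (A i) y := by
  filter_upwards [limit_ideal U A] with k hk
  intro η M hη
  by_contra hcon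
  rw [← Ultrafilter.eventually_not] at hcon
  obtain ⟨a0, ha0⟩ := hA k
  set R : ℝ := ∑ l, (a0 l : ℝ) * M with hR
  -- a violating exponent vector
  have h1 : ∀ᶠ i in (U : Filter ℕ), ∃ a : Fin d → ℕ, a ∈ A i ∧ (∀ l, (a l : ℝ) ≤ R / η) ∧
      ∃ y : Fin d → ℝ, (∀ l, 0 ≤ y l) ∧ ∑ l, (a l : ℝ) * y l < ordA (A k) y := by
    filter_upwards [hcon] with i hi
    push Not at hi
    obtain ⟨y, hy1, hy2, hy3⟩ := hi
    have hy0 : ∀ l, 0 ≤ y l := fun l => hη.le.trans (hy1 l)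
    obtain ⟨a, ha, hlt⟩ := exists_lt_of_ordA_lt (hA i) hy3
    refine ⟨a, ha, ?_, y, hy0, hlt⟩
    intro l
    have h2 : ordA (A k) y ≤ R := by
      refine (ordA_le hy0 ha0 le_rfl).trans ?_
      exact sum_le_sum fun l _ => mul_le_mul_of_nonneg_left (hy2 l) (Nat.cast_nonneg _)
    have h3 : (a l : ℝ) * η ≤ ∑ l, (a l : ℝ) * y l := by
      refine (mul_le_mul_of_nonneg_left (hy1 l) (Nat.cast_nonneg _)).trans ?_
      exact single_le_sum (f := fun l => (a l : ℝ) * y l)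
        (fun l _ => mul_nonneg (Nat.cast_nonneg _) (hy0 l)) (mem_univ l)
    rw [le_div_iff₀ hη]
    linarith
  obtain ⟨a, ha⟩ := h1.choice
  -- it is constant
  have hfin : Set.Finite {b : Fin d → ℕ | ∀ l, (b l : ℝ) ≤ R / η} := by
    refine (Set.finite_Iic (fun _ : Fin d => ⌊R / η⌋₊)).subset ?_
    intro b hb l
    exact Nat.le_floor (hb l)
  have hex : ∃ b ∈ {b : Fin d → ℕ | ∀ l, (b l : ℝ) ≤ R / η},
      ∀ᶠ i in (U : Filter ℕ), a i = b := by
    have h4 := (Ultrafilter.eventually_exists_mem_iff (f := U)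
      (P := fun b i => a i = b) hfin).1 (by
        filter_upwards [ha] with i hi
        exact ⟨a i, hi.2.1, rfl⟩)
    exact h4
  obtain ⟨b, _, hb⟩ := hex
  obtain ⟨b', hb', hb''⟩ := hk b (by
    filter_upwards [ha, hb] with i h1 h2
    exact ⟨a i, h1.1, h2.le⟩)
  obtain ⟨i, ⟨_, _, y, hy0, hlt⟩, hi⟩ := (ha.and hb).exists
  rw [hi] at hlt
  exact absurd hlt (not_lt.2 (ordA_le hy0 hb' hb''))

/-! ### the core -/

/-- The log discrepancy function on a simplicial cone. -/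
noncomputable def F {d : ℕ} {ι : Type} [Fintype ι] (b : Fin d → ℝ) (r : ι → ℝ)
    (A : ι → Set (Fin d → ℕ)) (y : Fin d → ℝ) : ℝ :=
  ∑ l, (1 - b l) * y l - ∑ j, r j * ordA (A j) y

/-- There is no infinite ascending sequence of infima of log discrepancy functions. The exponents
are `r' k` in the upper bound and `r k` in the lower bound. -/
theorem core {d : ℕ} {ι : Type} [Fintype ι] {S : Set ℝ} (hS : S.IsWF)
    (N : ℕ → AddSubgroup (Fin d → ℝ)) (b : ℕ → Fin d → ℝ) (r r' : ℕ → ι → ℝ)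
    (A : ℕ → ι → Set (Fin d → ℕ)) (w : ℕ → Fin d → ℝ) (μ c : ℕ → ℝ)
    (hN : ∀ k i, Pi.single i 1 ∈ N k)
    (hb : ∀ k i, b k i ∈ S) (hb1 : ∀ k i, b k i ≤ 1)
    (hr0 : ∀ k j, 0 ≤ r' k j)
    (hrr : ∀ᶠ k in (Filter.hyperfilter ℕ : Filter ℕ),
      ∀ᶠ i in (Filter.hyperfilter ℕ : Filter ℕ), ∀ j, r' k j ≤ r i j)
    (hA : ∀ k j, (A k j).Nonempty)
    (hw : ∀ k, w k ∈ N k) (hw0 : ∀ k i, 0 < w k i)
    (hwc : ∀ k, F (b k) (r' k) (A k) (w k) < c k)
    (hμ : ∀ k, ∀ y ∈ N k, (∀ i, 0 < y i) → μ k ≤ F (b k) (r k) (A k) y)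
    (hc : ∀ k i, k < i → c k ≤ μ i) : False := by
  set U : Ultrafilter ℕ := Filter.hyperfilter ℕ with hU
  have hUtop : (U : Filter ℕ) ≤ atTop := Nat.hyperfilter_le_atTop
  have h1 := recur U N hN
  have h2 : ∀ᶠ k in (U : Filter ℕ), ∀ᶠ i in (U : Filter ℕ), ∀ l, b k l ≤ b i l := by
    have : ∀ l, ∀ᶠ k in (U : Filter ℕ), ∀ᶠ i in (U : Filter ℕ), b k l ≤ b i l :=
      fun l => wf_ultra U hS (fun k => b k l) (fun k => hb k l)
    filter_upwards [Filter.eventually_all.2 this] with k hk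
    exact Filter.eventually_all.2 hk
  have h4 := Filter.eventually_all.2 fun j => ideal_ultra U (fun k => A k j) (fun k => hA k j)
  obtain ⟨k, hk1, hk2, hk3, hk4⟩ := (h1.and (h2.and (hrr.and h4))).exists
  -- the size of the neighbourhood
  obtain ⟨m, hm, hml⟩ : ∃ m : ℝ, 0 < m ∧ ∀ l, m ≤ w k l := by
    rcases isEmpty_or_nonempty (Fin d) with h | h
    · exact ⟨1, one_pos, fun l => h.elim l⟩
    · obtain ⟨l0, hl0⟩ := Finite.exists_min (w k)
      exact ⟨w k l0, hw0 k l0, hl0⟩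
  have hwn : ∀ l, 0 ≤ w k l := fun l => (hw0 k l).le
  set P : ℝ := ∑ l, (1 - b k l) * w k l with hP
  set R : ℝ := ∑ j, r' k j * ordA (A k j) (w k) with hR
  have hP0 : 0 ≤ P := sum_nonneg fun l _ => mul_nonneg (by linarith [hb1 k l]) (hwn l)
  have hR0 : 0 ≤ R := sum_nonneg fun j _ => mul_nonneg (hr0 k j) (ordA_nonneg (hA k j) hwn)
  have hgap : P - R < c k := hwc k
  obtain ⟨δ, hδ0, hδ1, hδ⟩ : ∃ δ : ℝ, 0 < δ ∧ δ ≤ 1 / 2 ∧ P - R + δ * (P + R) < c k := by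
    refine ⟨min (1 / 2) ((c k - (P - R)) / (2 * (P + R + 1))), ?_, min_le_left _ _, ?_⟩
    · apply lt_min (by norm_num)
      apply div_pos (by linarith) (by positivity)
    · have e1 : min (1 / 2) ((c k - (P - R)) / (2 * (P + R + 1))) * (P + R) ≤
          (c k - (P - R)) / (2 * (P + R + 1)) * (P + R) :=
        mul_le_mul_of_nonneg_right (min_le_right _ _) (by linarith)
      have e2 : (c k - (P - R)) / (2 * (P + R + 1)) * (P + R) < c k - (P - R) := by
        rw [div_mul_eq_mul_div, div_lt_iff₀ (by positivity)]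
        nlinarith
      linarith
  have hε : 0 < δ * m := mul_pos hδ0 hm
  have hU1 : ∀ᶠ i in (U : Filter ℕ), k < i := hUtop (eventually_gt_atTop k)
  have hU2 : ∀ᶠ i in (U : Filter ℕ), ∀ j, ∀ y : Fin d → ℝ, (∀ l, m / 2 ≤ y l) →
      (∀ l, y l ≤ ∑ l', 2 * w k l') → ordA (A k j) y ≤ ordA (A i j) y :=
    Filter.eventually_all.2 fun j => hk4 j (m / 2) (∑ l', 2 * w k l') (by positivity)
  obtain ⟨i, ⟨y, hyN, hy⟩, hi2, hi3, hi4, hki⟩ :=
    ((hk1 (w k) (hw k) (δ * m) hε).and (hk2.and (hk3.and (hU2.and hU1)))).exists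
  have hyl : ∀ l, |w k l - y l| ≤ δ * w k l := by
    intro l
    have e1 : |w k l - y l| ≤ ‖w k - y‖ := norm_le_pi_norm (w k - y) l
    have e2 : δ * m ≤ δ * w k l := mul_le_mul_of_nonneg_left (hml l) hδ0.le
    linarith
  have hlow : ∀ l, (1 - δ) * w k l ≤ y l := by
    intro l
    have := (abs_le.1 (hyl l)).2
    linarith
  have hup : ∀ l, y l ≤ (1 + δ) * w k l := by
    intro l
    have := (abs_le.1 (hyl l)).1
    linarith
  have hyη : ∀ l, m / 2 ≤ y l := by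
    intro l
    have e1 := hlow l
    have e2 := hml l
    nlinarith [hw0 k l]
  have hyM : ∀ l, y l ≤ ∑ l', 2 * w k l' := by
    intro l
    have e1 : 2 * w k l ≤ ∑ l', 2 * w k l' :=
      single_le_sum (f := fun l' => 2 * w k l') (fun l' _ => by linarith [hwn l']) (mem_univ l)
    have e2 := hup l
    nlinarith [hw0 k l]
  have hy0 : ∀ l, 0 < y l := fun l => lt_of_lt_of_le (by positivity) (hyη l)
  have hyn : ∀ l, 0 ≤ y l := fun l => (hy0 l).le
  -- comparison of the two functions at `y`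
  have c1 : F (b i) (r i) (A i) y ≤ F (b k) (r' k) (A k) y := by
    unfold F
    apply sub_le_sub
    · refine sum_le_sum fun l _ => mul_le_mul_of_nonneg_right ?_ (hyn l)
      linarith [hi2 l]
    · refine sum_le_sum fun j _ => ?_
      exact mul_le_mul (hi3 j) (hi4 j y hyη hyM) (ordA_nonneg (hA k j) hyn)
        ((hr0 k j).trans (hi3 j))
  have c2 : F (b k) (r' k) (A k) y ≤ (1 + δ) * P - (1 - δ) * R := by
    unfold F
    apply sub_le_sub
    · rw [hP, mul_sum]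
      refine sum_le_sum fun l _ => ?_
      have e1 := mul_le_mul_of_nonneg_left (hup l) (by linarith [hb1 k l] : 0 ≤ 1 - b k l)
      linarith
    · rw [hR, mul_sum]
      refine sum_le_sum fun j _ => ?_
      have e1 : (1 - δ) * ordA (A k j) (w k) ≤ ordA (A k j) y := by
        apply le_ordA (hA k j)
        intro a ha
        have e2 := ordA_le hwn ha le_rfl
        have e3 : (1 - δ) * ∑ l, (a l : ℝ) * w k l ≤ ∑ l, (a l : ℝ) * y l := by
          rw [mul_sum]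
          refine sum_le_sum fun l _ => ?_
          have e4 := mul_le_mul_of_nonneg_left (hlow l) (Nat.cast_nonneg (α := ℝ) (a l))
          linarith
        have e5 := mul_le_mul_of_nonneg_left e2 (by linarith : (0 : ℝ) ≤ 1 - δ)
        linarith
      have e6 := mul_le_mul_of_nonneg_left e1 (hr0 k j)
      linarith
  have c3 := hμ i y hyN hy0
  have c4 := hc k i hki
  linarith

/-- The data of a simplicial cone. -/
def Dat (S : Set ℝ) (d J : ℕ) (t t' μ c : ℝ) : Prop :=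
  ∃ (N : AddSubgroup (Fin d → ℝ)) (b : Fin d → ℝ) (r : Fin J → ℝ)
    (A : Fin J → Set (Fin d → ℕ)) (C : Set (Fin d → ℕ)) (w : Fin d → ℝ),
    (∀ i, Pi.single i 1 ∈ N) ∧ (∀ i, b i ∈ S ∧ b i ≤ 1) ∧
    (∀ j, r j ∈ S ∧ 0 ≤ r j ∧ (A j).Nonempty) ∧ C.Nonempty ∧ w ∈ N ∧ (∀ i, 0 < w i) ∧
    F b r A w - t' * ordA C w < c ∧
    ∀ y ∈ N, (∀ i, 0 < y i) → μ ≤ F b r A y - t * ordA C y

theorem core_dat {S : Set ℝ} (hS : S.IsWF) {d J : ℕ} (t t' μ c : ℕ → ℝ)
    (ht0 : ∀ k, 0 ≤ t' k) (htt : ∀ k i, k < i → t' k ≤ t i) (hc : ∀ k i, k < i → c k ≤ μ i)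
    (h : ∀ k, Dat S d J (t k) (t' k) (μ k) (c k)) : False := by
  choose N b r A C w hN hb hr hC hw hw0 hwc hμ using h
  refine core (ι := Option (Fin J)) hS N b
    (fun k j => Option.elim j (t k) (r k)) (fun k j => Option.elim j (t' k) (r k))
    (fun k j => Option.elim j (C k) (A k)) w μ c hN (fun k i => (hb k i).1)
    (fun k i => (hb k i).2) ?_ ?_ ?_ hw hw0 ?_ ?_ hc
  · rintro k (_ | j)
    · exact ht0 k
    · exact (hr k j).2.1
  · have h1 : ∀ᶠ k in (Filter.hyperfilter ℕ : Filter ℕ),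
        ∀ᶠ i in (Filter.hyperfilter ℕ : Filter ℕ), ∀ j, r k j ≤ r i j := by
      have : ∀ j, ∀ᶠ k in (Filter.hyperfilter ℕ : Filter ℕ),
          ∀ᶠ i in (Filter.hyperfilter ℕ : Filter ℕ), r k j ≤ r i j :=
        fun j => wf_ultra _ hS (fun k => r k j) (fun k => (hr k j).1)
      filter_upwards [Filter.eventually_all.2 this] with k hk
      exact Filter.eventually_all.2 hk
    filter_upwards [h1] with k hk
    filter_upwards [hk, Nat.hyperfilter_le_atTop (eventually_gt_atTop k)] with i hi hki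
    rintro (_ | j)
    · exact htt k i hki
    · exact hi j
  · rintro k (_ | j)
    · exact hC k
    · exact (hr k j).2.2
  · intro k
    have := hwc k
    unfold F at this ⊢
    rw [Fintype.sum_option]
    simp only [Option.elim_none, Option.elim_some]
    linarith
  · intro k y hy hy0
    have := hμ k y hy hy0
    unfold F at this ⊢
    rw [Fintype.sum_option]
    simp only [Option.elim_none, Option.elim_some]
    linarith

/-- The same with bounded `d` and `J`. -/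
theorem core_bdd {S : Set ℝ} (hS : S.IsWF) {n K : ℕ} (t t' μ c : ℕ → ℝ)
    (ht0 : ∀ k, 0 ≤ t' k) (htt : ∀ k i, k < i → t' k ≤ t i) (hc : ∀ k i, k < i → c k ≤ μ i)
    (h : ∀ k, ∃ d ≤ n, ∃ J ≤ K, Dat S d J (t k) (t' k) (μ k) (c k)) : False := by
  have h1 : ∀ᶠ k in (Filter.hyperfilter ℕ : Filter ℕ), ∃ p : Fin (n + 1) × Fin (K + 1),
      Dat S p.1 p.2 (t k) (t' k) (μ k) (c k) := by
    refine Eventually.of_forall fun k => ?_
    obtain ⟨d, hd, J, hJ, hD⟩ := h k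
    exact ⟨(⟨d, by omega⟩, ⟨J, by omega⟩), hD⟩
  obtain ⟨p, hp⟩ := Ultrafilter.eventually_exists_iff.1 h1
  have h2 : ∃ᶠ k in atTop, Dat S p.1 p.2 (t k) (t' k) (μ k) (c k) :=
    hp.frequently.filter_mono Nat.hyperfilter_le_atTop
  obtain ⟨φ, hφ, hD⟩ := extraction_of_frequently_atTop h2
  exact core_dat hS (fun k => t (φ k)) (fun k => t' (φ k)) (fun k => μ (φ k)) (fun k => c (φ k))
    (fun k => ht0 _) (fun k i hki => htt _ _ (hφ hki)) (fun k i hki => hc _ _ (hφ hki)) hD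

end MldAcc
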