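import Pool.Agent.MldAcc.Defs
import Pool.Agent.MldAcc.Core
import Pool.Agent.MldGap.Toric

/-!
# The ascending chain condition for toric triples
-/

namespace MldAcc

open MldGap Finset Filter

variable {n : ℕ}

/-- A toric valuation lies in the relative interior of a simplicial cone spanned by rays, and all
points of this relative interior are interior points of the big cone. -/
theorem exists_face (T : ToricTriple n) {v : Fin n → ℝ} (hv : v ∈ T.val) :
    ∃ (d : ℕ) (e : Fin d → T.ι) (x : Fin d → ℝ), d ≤ n ∧ (∀ l, 0 < x l) ∧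
      v = ∑ l, x l • T.ray (e l) ∧
      ∀ y : Fin d → ℝ, (∀ l, 0 < y l) → ∑ l, y l • T.ray (e l) ∈ interior (coneOf T.ray) := by
  classical
  obtain ⟨I, x, hx, hvx, hind⟩ := caratheodory T.ray v (interior_subset hv.2)
  have hsum : ∀ w : T.ι → ℝ, ∑ l : Fin I.card, w (I.equivFin.symm l : T.ι) •
      T.ray (I.equivFin.symm l : T.ι) = ∑ i ∈ I, w i • T.ray i := by
    intro w
    rw [← Finset.sum_coe_sort I (fun i => w i • T.ray i)]
    exact Equiv.sum_comp I.equivFin.symm (fun i : I => w i • T.ray i)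
  refine ⟨I.card, fun l => (I.equivFin.symm l : T.ι), fun l => x (I.equivFin.symm l : T.ι), ?_,
    fun l => hx _ (I.equivFin.symm l).2, ?_, ?_⟩
  · have h1 := hind.fintype_card_le_finrank
    rw [Fintype.card_coe, Module.finrank_fin_fun] at h1
    exact h1
  · rw [hsum x, hvx]
  · intro y hy
    have h1 : ∑ l : Fin I.card, y l • T.ray (I.equivFin.symm l : T.ι) =
        ∑ i ∈ I, (if h : i ∈ I then y (I.equivFin ⟨i, h⟩) else 1) • T.ray i := by
      rw [← hsum]
      refine sum_congr rfl fun l _ => ?_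
      rw [dif_pos (I.equivFin.symm l).2]
      simp
    rw [h1]
    refine interior_of_pos T.ray I x _ hx (fun i hi => ?_) (by rw [← hvx]; exact hv.2)
    rw [dif_pos hi]
    exact hy _

/-- The exponents in the coordinates of a simplicial cone. -/
def expo (T : ToricTriple n) {d : ℕ} (e : Fin d → T.ι) (C : Set ((Fin n → ℝ) →ₗ[ℝ] ℝ)) :
    Set (Fin d → ℕ) :=
  {a | ∃ m ∈ C, ∀ l, m (T.ray (e l)) = a l}

theorem expo_nonempty (T : ToricTriple n) {d : ℕ} (e : Fin d → T.ι)
    {C : Set ((Fin n → ℝ) →ₗ[ℝ] ℝ)} (hC : C.Nonempty)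
    (hint : ∀ m ∈ C, ∀ i, ∃ a : ℕ, m (T.ray i) = a) : (expo T e C).Nonempty := by
  obtain ⟨m, hm⟩ := hC
  choose a ha using hint m hm
  exact ⟨fun l => a (e l), m, hm, fun l => ha _⟩

theorem ord_eq (T : ToricTriple n) {d : ℕ} (e : Fin d → T.ι) {C : Set ((Fin n → ℝ) →ₗ[ℝ] ℝ)}
    (hint : ∀ m ∈ C, ∀ i, ∃ a : ℕ, m (T.ray i) = a) (y : Fin d → ℝ) :
    ord C (∑ l, y l • T.ray (e l)) = ordA (expo T e C) y := by
  unfold ord ordA
  congr 1
  ext z
  constructor
  · rintro ⟨m, hm, rfl⟩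
    choose a ha using hint m hm
    refine ⟨fun l => a (e l), ⟨m, hm, fun l => ha _⟩, ?_⟩
    simp only [map_sum, map_smul, smul_eq_mul, ha]
    exact sum_congr rfl fun l _ => mul_comm _ _
  · rintro ⟨a, ⟨m, hm, hma⟩, rfl⟩
    refine ⟨m, hm, ?_⟩
    simp only [map_sum, map_smul, smul_eq_mul, hma]
    exact sum_congr rfl fun l _ => mul_comm _ _

theorem ordA_zero {d : ℕ} {A : Set (Fin d → ℕ)} (h : (0 : Fin d → ℕ) ∈ A) {y : Fin d → ℝ}
    (hy : ∀ l, 0 ≤ y l) : ordA A y = 0 := by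
  apply le_antisymm
  · have := ordA_le hy h le_rfl
    simpa using this
  · exact ordA_nonneg ⟨_, h⟩ hy

theorem one_le_ordA {d : ℕ} {A : Set (Fin d → ℕ)} (hA : A.Nonempty)
    (h : (0 : Fin d → ℕ) ∉ A) : 1 ≤ ordA A (fun _ => 1) := by
  apply le_ordA hA
  intro a ha
  have hne : ∃ l, a l ≠ 0 := by
    by_contra hcon
    push Not at hcon
    apply h
    have : a = 0 := funext hcon
    rwa [this] at ha
  obtain ⟨l, hl⟩ := hne
  have h1 : (1 : ℝ) ≤ (a l : ℝ) * 1 := by
    rw [mul_one]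
    exact_mod_cast Nat.one_le_iff_ne_zero.2 hl
  exact h1.trans (single_le_sum (f := fun l => (a l : ℝ) * (1 : ℝ))
    (fun l _ => mul_nonneg (Nat.cast_nonneg _) zero_le_one) (mem_univ l))

/-- The log discrepancy function in the coordinates of a simplicial cone. -/
theorem disc_eq (T : ToricTriple n) {d : ℕ} (e : Fin d → T.ι) (y : Fin d → ℝ) :
    T.disc (∑ l, y l • T.ray (e l)) =
      F (fun l => T.b (e l)) T.r (fun j => expo T e (T.A j)) y := by
  unfold ToricTriple.disc F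
  congr 1
  · rw [map_sum]
    refine sum_congr rfl fun l _ => ?_
    rw [map_smul, T.ψ_ray, smul_eq_mul, mul_comm]
  · refine sum_congr rfl fun j _ => ?_
    rw [ord_eq T e (T.A_ray j)]

/-- The data of a simplicial cone with a bounded number of ideals. -/
theorem exists_dat {S : Set ℝ} {γ : ℝ} (hγ : 0 < γ) (hS : ∀ s ∈ S, 0 < s → γ ≤ s)
    (T : ToricTriple n) (hT : T.CoeffIn S) (hLC : T.LC) {C : Set ((Fin n → ℝ) →ₗ[ℝ] ℝ)}
    (hC : C.Nonempty) (hCint : ∀ m ∈ C, ∀ i, ∃ a : ℕ, m (T.ray i) = a) {t t' μ c : ℝ}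
    (hup : ∃ v ∈ T.val, T.disc v - t' * ord C v < c)
    (hlow : ∀ v ∈ T.val, μ ≤ T.disc v - t * ord C v) :
    ∃ d ≤ n, ∃ J ≤ ⌊(n : ℝ) / γ⌋₊, Dat S d J t t' μ c := by
  classical
  obtain ⟨v, hv, hvc⟩ := hup
  obtain ⟨d, e, x, hdn, hx, hvx, hint⟩ := exists_face T hv
  set A' : T.J → Set (Fin d → ℕ) := fun j => expo T e (T.A j) with hA'
  have hA'ne : ∀ j, (A' j).Nonempty := fun j => expo_nonempty T e (T.A_nonempty j) (T.A_ray j)
  set R : Finset T.J := univ.filter fun j => 0 < T.r j ∧ (0 : Fin d → ℕ) ∉ A' j with hR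
  -- dropping the irrelevant ideals
  have hdrop : ∀ y : Fin d → ℝ, (∀ l, 0 ≤ y l) →
      ∑ j, T.r j * ordA (A' j) y = ∑ j ∈ R, T.r j * ordA (A' j) y := by
    intro y hy
    symm
    apply sum_subset (subset_univ R)
    intro j _ hj
    rw [hR, mem_filter] at hj
    by_cases h1 : 0 < T.r j
    · by_cases h2 : (0 : Fin d → ℕ) ∈ A' j
      · rw [ordA_zero h2 hy, mul_zero]
      · exact absurd ⟨mem_univ _, h1, h2⟩ hj
    · have h3 : T.r j = 0 := le_antisymm (not_lt.1 h1) (T.r_nonneg j)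
      rw [h3, zero_mul]
  have hcoord : ∀ y : Fin d → ℝ, (∀ l, 0 ≤ y l) → T.disc (∑ l, y l • T.ray (e l)) =
      F (fun l => T.b (e l)) (fun j : Fin R.card => T.r (R.equivFin.symm j))
        (fun j => A' (R.equivFin.symm j)) y := by
    intro y hy
    rw [disc_eq]
    unfold F
    rw [hdrop y hy]
    congr 1
    rw [← Finset.sum_coe_sort R (fun j => T.r j * ordA (A' j) y)]
    exact (Equiv.sum_comp R.equivFin.symm (fun j : R => T.r j * ordA (A' j) y)).symm
  have hmemN : ∀ y : Fin d → ℝ, (∀ l, ∃ a : ℕ, y l = a) → ∑ l, y l • T.ray (e l) ∈ T.N := by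
    intro y hy
    refine T.N.sum_mem fun l _ => ?_
    obtain ⟨a, ha⟩ := hy l
    rw [ha, Nat.cast_smul_eq_nsmul]
    exact T.N.nsmul_mem (T.ray_mem _) a
  -- the number of ideals
  have hcard : R.card ≤ ⌊(n : ℝ) / γ⌋₊ := by
    apply Nat.le_floor
    rw [le_div_iff₀ hγ]
    have h1 : 0 ≤ T.disc (∑ l : Fin d, (1 : ℝ) • T.ray (e l)) :=
      hLC _ ⟨hmemN (fun _ => 1) (fun l => ⟨1, by norm_num⟩), hint (fun _ => 1) fun l => one_pos⟩
    have h2 := disc_eq T e (fun _ => 1)
    rw [h2] at h1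
    unfold F at h1
    have h3 := hdrop (fun _ => 1) (fun _ => zero_le_one)
    have h4 : (R.card : ℝ) * γ ≤ ∑ j ∈ R, T.r j * ordA (A' j) (fun _ => 1) := by
      rw [← nsmul_eq_mul, ← sum_const]
      refine sum_le_sum fun j hj => ?_
      rw [hR, mem_filter] at hj
      have h5 := hS _ (hT.2 j) hj.2.1
      have h6 := one_le_ordA (hA'ne j) hj.2.2
      nlinarith
    have h5 : ∑ l : Fin d, (1 - T.b (e l)) * 1 ≤ n := by
      have h6 : ∑ l : Fin d, (1 - T.b (e l)) * 1 ≤ ∑ l : Fin d, (1 : ℝ) := by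
        refine sum_le_sum fun l _ => ?_
        linarith [T.b_nonneg (e l)]
      rw [sum_const, card_univ, Fintype.card_fin, nsmul_eq_mul, mul_one] at h6
      exact h6.trans (by exact_mod_cast hdn)
    linarith
  refine ⟨d, hdn, R.card, hcard, ?_⟩
  -- the lattice
  let L : (Fin d → ℝ) →+ (Fin n → ℝ) :=
    { toFun := fun y => ∑ l, y l • T.ray (e l)
      map_zero' := by simp
      map_add' := fun y z => by simp [add_smul, sum_add_distrib] }
  refine ⟨T.N.comap L, fun l => T.b (e l), fun j => T.r (R.equivFin.symm j),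
    fun j => A' (R.equivFin.symm j), expo T e C, x, ?_, fun i => ⟨hT.1 _, T.b_le_one _⟩,
    fun j => ⟨hT.2 _, T.r_nonneg _, hA'ne _⟩, expo_nonempty T e hC hCint, ?_, hx, ?_, ?_⟩
  · intro i
    apply hmemN
    intro l
    by_cases h : l = i
    · subst h
      exact ⟨1, by simp⟩
    · exact ⟨0, by simp [h]⟩
  · show ∑ l, x l • T.ray (e l) ∈ T.N
    rw [← hvx]
    exact hv.1
  · rw [← hcoord x (fun l => (hx l).le), ← ord_eq T e hCint, ← hvx]
    exact hvc
  · intro y hy hy0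
    rw [← hcoord y (fun l => (hy0 l).le), ← ord_eq T e hCint]
    exact hlow _ ⟨hy, hint y hy0⟩

/-- A well-ordered set of reals has a smallest positive element, if any. -/
theorem exists_gamma {S : Set ℝ} (hS : S.IsWF) : ∃ γ : ℝ, 0 < γ ∧ ∀ s ∈ S, 0 < s → γ ≤ s := by
  by_cases h : (S ∩ Set.Ioi 0).Nonempty
  · have hwf : (S ∩ Set.Ioi 0).IsWF := hS.mono Set.inter_subset_left
    refine ⟨hwf.min h, (hwf.min_mem h).2, fun s hs h0 => ?_⟩
    exact hwf.min_le h ⟨hs, h0⟩
  · refine ⟨1, one_pos, fun s hs h0 => ?_⟩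
    exact absurd ⟨s, hs, h0⟩ h

/-- The general form of the ascending chain condition. -/
theorem general {S : Set ℝ} (hS : S.IsWF) (T : ℕ → ToricTriple n) (hT : ∀ k, (T k).CoeffIn S)
    (hLC : ∀ k, (T k).LC) (C : ℕ → Set ((Fin n → ℝ) →ₗ[ℝ] ℝ)) (hC : ∀ k, (C k).Nonempty)
    (hCint : ∀ k, ∀ m ∈ C k, ∀ i, ∃ a : ℕ, m ((T k).ray i) = a) (t t' μ c : ℕ → ℝ)
    (ht0 : ∀ k, 0 ≤ t' k) (htt : ∀ k i, k < i → t' k ≤ t i) (hc : ∀ k i, k < i → c k ≤ μ i)
    (hup : ∀ k, ∃ v ∈ (T k).val, (T k).disc v - t' k * ord (C k) v < c k)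
    (hlow : ∀ k, ∀ v ∈ (T k).val, μ k ≤ (T k).disc v - t k * ord (C k) v) : False := by
  obtain ⟨γ, hγ, hγS⟩ := exists_gamma hS
  exact core_bdd hS t t' μ c ht0 htt hc fun k =>
    exists_dat hγ hγS (T k) (hT k) (hLC k) (hC k) (hCint k) (hup k) (hlow k)

theorem val_nonempty (T : ToricTriple n) : T.val.Nonempty := by
  obtain ⟨_, v, hv, hv', _⟩ := T.toToricGerm.nonempty
  exact ⟨v, hv, hv'⟩

/-- ACC for minimal log discrepancies of toric triples. -/
theorem acc_mld {S : Set ℝ} (hS : S.IsWF) (x : ℕ → ℝ) (hx : ∀ k, x k ∈ mldSet n S) :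
    ¬ StrictMono x := by
  intro hmono
  choose T hLC hT hmld using hx
  have hbdd : ∀ k, BddBelow ((T k).disc '' (T k).val) := by
    intro k
    refine ⟨0, ?_⟩
    rintro _ ⟨v, hv, rfl⟩
    exact hLC k v hv
  have hzero : ∀ v : Fin n → ℝ, ord ({0} : Set ((Fin n → ℝ) →ₗ[ℝ] ℝ)) v = 0 := by
    intro v
    unfold ord
    simp
  refine general hS T hT hLC (fun _ => {0}) (fun _ => Set.singleton_nonempty _) ?_
    (fun _ => 0) (fun _ => 0) x (fun k => x (k + 1)) (fun _ => le_rfl) (fun _ _ _ => le_rfl)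
    (fun k i hki => hmono.monotone hki) ?_ ?_
  · intro k m hm i
    rw [Set.mem_singleton_iff.1 hm]
    exact ⟨0, by simp⟩
  · intro k
    have h1 : sInf ((T k).disc '' (T k).val) < x (k + 1) := by
      have := hmld k
      unfold ToricTriple.mld at this
      rw [this]
      exact hmono (Nat.lt_succ_self k)
    obtain ⟨_, ⟨v, hv, rfl⟩, h2⟩ := exists_lt_of_csInf_lt ((val_nonempty (T k)).image _) h1
    exact ⟨v, hv, by rw [zero_mul, sub_zero]; exact h2⟩
  · intro k v hv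
    rw [zero_mul, sub_zero, ← hmld k]
    exact csInf_le (hbdd k) ⟨v, hv, rfl⟩

/-- An exponent which vanishes on all rays is zero. -/
theorem eq_zero_of_ray (T : ToricTriple n) (m : (Fin n → ℝ) →ₗ[ℝ] ℝ) (h : ∀ i, m (T.ray i) = 0) :
    m = 0 := by
  obtain ⟨v, hv⟩ := T.full
  have hcone : ∀ z ∈ coneOf T.ray, m z = 0 := by
    rintro z ⟨c, _, rfl⟩
    rw [map_sum]
    refine sum_eq_zero fun i _ => ?_
    rw [map_smul, h, smul_zero]
  ext z
  have hcont : Filter.Tendsto (fun s : ℝ => v + s • (Pi.single z 1 : Fin n → ℝ))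
      (nhdsWithin 0 (Set.Ioi 0)) (nhds v) := by
    have h1 : Continuous (fun s : ℝ => v + s • (Pi.single z 1 : Fin n → ℝ)) := by fun_prop
    have h2 := h1.tendsto 0
    simp only [zero_smul, add_zero] at h2
    exact h2.mono_left nhdsWithin_le_nhds
  have h3 := (hcont.eventually (isOpen_interior.mem_nhds hv)).and self_mem_nhdsWithin
  obtain ⟨s, hs, hs0⟩ := h3.exists
  have h4 := hcone _ (interior_subset hs)
  rw [map_add, map_smul, hcone v (interior_subset hv), zero_add, smul_eq_mul] at h4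
  have h5 := (mul_eq_zero.1 h4).resolve_left (ne_of_gt hs0)
  simpa using h5

/-- ACC for `a`-lc thresholds on toric triples. -/
theorem acc_thr {S : Set ℝ} (hS : S.IsWF) {a : ℝ} (ha : 0 ≤ a) (x : ℕ → ℝ)
    (hx : ∀ k, x k ∈ thrSet n S a) : ¬ StrictMono x := by
  intro hmono
  choose T C hT hC hmld hthr using hx
  -- the set of the admissible exponents
  set Q : ℕ → Set ℝ := fun k => {t | 0 ≤ t ∧ ∀ v ∈ (T k).val,
    a ≤ (T k).disc v - t * ord (C k) v} with hQ
  have hQx : ∀ k, sSup (Q k) = x k := hthr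
  have hQ0 : ∀ k, (0 : ℝ) ∈ Q k := fun k =>
    ⟨le_rfl, fun v hv => by rw [zero_mul, sub_zero]; exact hmld k v hv⟩
  have hord : ∀ k, ∃ v ∈ (T k).val, 1 ≤ ord (C k) v := by
    intro k
    classical
    obtain ⟨v0, hv0⟩ := (T k).full
    obtain ⟨v, hv⟩ := val_nonempty (T k)
    -- the sum of all rays
    have hsum : ∑ i, (T k).ray i ∈ interior (coneOf (T k).ray) := by
      obtain ⟨c, hc, hvc⟩ := interior_subset hv.2
      set M : ℝ := 1 + ∑ i, c i with hM
      have hM0 : 0 < M := by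
        have : 0 ≤ ∑ i, c i := sum_nonneg fun i _ => hc i
        linarith
      have hle : ∀ i, c i ≤ M := by
        intro i
        have : c i ≤ ∑ j, c j := single_le_sum (fun j _ => hc j) (mem_univ i)
        linarith
      have h1 : ∑ i, (T k).ray i = M⁻¹ • v + ∑ i, (1 - M⁻¹ * c i) • (T k).ray i := by
        rw [hvc, smul_sum, ← sum_add_distrib]
        refine sum_congr rfl fun i _ => ?_
        rw [smul_smul, ← add_smul]
        have : M⁻¹ * c i + (1 - M⁻¹ * c i) = 1 := by ring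
        rw [this, one_smul]
      rw [h1]
      refine interior_add_mem (interior_smul_mem hv.2 (inv_pos.2 hM0))
        (partial_mem _ _ _ fun i _ => ?_)
      have : M⁻¹ * c i ≤ 1 := by
        rw [inv_mul_le_iff₀ hM0, mul_one]
        exact hle i
      linarith
    refine ⟨_, ⟨sum_mem fun i _ => (T k).ray_mem i, hsum⟩, ?_⟩
    apply le_csInf ((hC k).1.image _)
    rintro _ ⟨m, hm, rfl⟩
    choose b hb using (hC k).2.1 m hm
    have hne : ∃ i, b i ≠ 0 := by
      by_contra hcon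
      push Not at hcon
      apply (hC k).2.2
      have : m = 0 := eq_zero_of_ray (T k) m fun i => by rw [hb, hcon i, Nat.cast_zero]
      rwa [this] at hm
    obtain ⟨i, hi⟩ := hne
    simp only [map_sum, hb]
    have h1 : (1 : ℝ) ≤ b i := by exact_mod_cast Nat.one_le_iff_ne_zero.2 hi
    exact h1.trans (single_le_sum (f := fun i => (b i : ℝ)) (fun i _ => Nat.cast_nonneg _)
      (mem_univ i))
  have hbdd : ∀ k, BddAbove (Q k) := by
    intro k
    obtain ⟨v, hv, h1⟩ := hord k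
    refine ⟨(T k).disc v - a, ?_⟩
    rintro t ⟨ht0, ht⟩
    have h2 := ht v hv
    nlinarith
  have hx0 : ∀ k, 0 ≤ x k := fun k => by
    rw [← hQx k]
    exact le_csSup (hbdd k) (hQ0 k)
  have hordn : ∀ k, ∀ v ∈ (T k).val, 0 ≤ ord (C k) v := by
    intro k v hv
    apply le_csInf ((hC k).1.image _)
    rintro _ ⟨m, hm, rfl⟩
    obtain ⟨c, hc, hvc⟩ := interior_subset hv.2
    simp only [hvc, map_sum, map_smul, smul_eq_mul]
    refine sum_nonneg fun i _ => mul_nonneg (hc i) ?_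
    obtain ⟨b, hb⟩ := (hC k).2.1 m hm i
    rw [hb]
    exact Nat.cast_nonneg _
  have hmem : ∀ k, ∀ v ∈ (T k).val, a ≤ (T k).disc v - x k * ord (C k) v := by
    intro k v hv
    rcases eq_or_lt_of_le (hordn k v hv) with h0 | h0
    · rw [← h0, mul_zero, sub_zero]
      exact hmld k v hv
    · have h1 : x k ≤ ((T k).disc v - a) / ord (C k) v := by
        rw [← hQx k]
        apply csSup_le ⟨0, hQ0 k⟩
        rintro t ⟨_, ht⟩
        rw [le_div_iff₀ h0]
        linarith [ht v hv]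
      rw [le_div_iff₀ h0] at h1
      linarith
  refine general hS T hT (fun k v hv => ha.trans (hmld k v hv)) C (fun k => (hC k).1)
    (fun k => (hC k).2.1) x (fun k => (x k + x (k + 1)) / 2) (fun _ => a) (fun _ => a) ?_ ?_
    (fun _ _ _ => le_rfl) ?_ hmem
  · intro k
    have h1 := hx0 k
    have h2 := hx0 (k + 1)
    linarith
  · intro k i hki
    have h1 : x k < x (k + 1) := hmono (Nat.lt_succ_self k)
    have h2 : x (k + 1) ≤ x i := hmono.monotone hki
    show (x k + x (k + 1)) / 2 ≤ x i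
    linarith
  · intro k
    by_contra hcon
    push Not at hcon
    have h1 : x k < x (k + 1) := hmono (Nat.lt_succ_self k)
    have h2 : (x k + x (k + 1)) / 2 ∈ Q k :=
      ⟨by linarith [hx0 k, hx0 (k + 1)], hcon⟩
    have h3 := le_csSup (hbdd k) h2
    rw [hQx k] at h3
    linarith

end MldAcc
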