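import Pool.Agent.MldGap.Defs

/-!
# MP_fa3f7f_ag: toric triples, their minimal log discrepancies and thresholds

`MldGap.ToricGerm n` is a toric log germ `(x ∈ X, B)` of dimension `n`: the affine toric variety of
an arbitrary full dimensional strongly convex rational cone, `x` its torus fixed point, and a torus
invariant boundary `B` with `K_X + B` `ℝ`-Cartier.
-/

namespace MldAcc

open MldGap

noncomputable section

/-- A toric triple `(x ∈ X, B, ∏_j 𝔞_j^{r_j})`: a toric log germ together with finitely many
monomial ideals `𝔞_j` and real exponents `r_j ≥ 0`. The ideal `𝔞_j` is given by the set `A j` of the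
exponents `m` of monomials which generate it. An exponent is only required to take nonnegative
integral values at the primitive generators of the rays; it does not have to be integral on `N`. So
`𝔞_j` may be an ideal of `O_X`, and more generally a fractional ideal generated by monomials of the
Cox ring of `X`, e.g. for `X = ℂ^n / G` the ideal generated by all monomials of a semi-invariant
power series `f` (the effective Weil divisor `(f = 0) / G` of `X`). -/
structure ToricTriple (n : ℕ) extends ToricGerm n where
  /-- the index set of the ideals -/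
  J : Type
  /-- it is finite -/
  finJ : Fintype J
  /-- the exponents -/
  r : J → ℝ
  /-- they are nonnegative -/
  r_nonneg : ∀ j, 0 ≤ r j
  /-- the exponents of the monomials which generate the ideals -/
  A : J → Set ((Fin n → ℝ) →ₗ[ℝ] ℝ)
  /-- the ideals are not zero -/
  A_nonempty : ∀ j, (A j).Nonempty
  /-- nonnegative integral values at the primitive generators of the rays -/
  A_ray : ∀ j, ∀ m ∈ A j, ∀ i, ∃ a : ℕ, m (ray i) = a

attribute [instance] ToricTriple.finJ

variable {n : ℕ}

/-- The order of a monomial ideal along the toric valuation `v`. -/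
def ord (A : Set ((Fin n → ℝ) →ₗ[ℝ] ℝ)) (v : Fin n → ℝ) : ℝ :=
  sInf ((fun m : (Fin n → ℝ) →ₗ[ℝ] ℝ => m v) '' A)

/-- The log discrepancy of the toric valuation `v` with respect to the triple. -/
def ToricTriple.disc (T : ToricTriple n) (v : Fin n → ℝ) : ℝ :=
  T.ψ v - ∑ j, T.r j * ord (T.A j) v

/-- The toric valuations with centre `x`: the lattice points in the interior of the cone. -/
def ToricTriple.val (T : ToricTriple n) : Set (Fin n → ℝ) :=
  {v | v ∈ T.N ∧ v ∈ interior (coneOf T.ray)}

/-- The triple is log canonical at `x`: the log discrepancies are nonnegative. -/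
def ToricTriple.LC (T : ToricTriple n) : Prop := ∀ v ∈ T.val, 0 ≤ T.disc v

/-- The minimal log discrepancy of the triple at `x`: the infimum of the log discrepancies of the
toric valuations with centre `x`. -/
def ToricTriple.mld (T : ToricTriple n) : ℝ := sInf (T.disc '' T.val)

/-- The coefficients of `B` and the exponents of the ideals belong to `S`. -/
def ToricTriple.CoeffIn (T : ToricTriple n) (S : Set ℝ) : Prop :=
  (∀ i, T.b i ∈ S) ∧ ∀ j, T.r j ∈ S

/-- `C` is (the set of exponents of the generators of) a nonzero monomial ideal which does not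
contain a unit. -/
def ToricTriple.IsIdeal (T : ToricTriple n) (C : Set ((Fin n → ℝ) →ₗ[ℝ] ℝ)) : Prop :=
  C.Nonempty ∧ (∀ m ∈ C, ∀ i, ∃ a : ℕ, m (T.ray i) = a) ∧ 0 ∉ C

/-- The `a`-lc threshold of the ideal `C` with respect to the triple: the largest `t ≥ 0` such that
all log discrepancies of `(X, B, ∏_j 𝔞_j^{r_j} C^t)` at `x` are at least `a`. -/
def ToricTriple.thr (T : ToricTriple n) (C : Set ((Fin n → ℝ) →ₗ[ℝ] ℝ)) (a : ℝ) : ℝ :=
  sSup {t | 0 ≤ t ∧ ∀ v ∈ T.val, a ≤ T.disc v - t * ord C v}

/-- The minimal log discrepancies of the `n`-dimensional log canonical toric triples with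
coefficients and exponents in `S`. -/
def mldSet (n : ℕ) (S : Set ℝ) : Set ℝ :=
  {x | ∃ T : ToricTriple n, T.LC ∧ T.CoeffIn S ∧ T.mld = x}

/-- The `a`-lc thresholds on `n`-dimensional toric triples with coefficients and exponents in `S`
and minimal log discrepancy at least `a`. -/
def thrSet (n : ℕ) (S : Set ℝ) (a : ℝ) : Set ℝ :=
  {x | ∃ (T : ToricTriple n) (C : Set ((Fin n → ℝ) →ₗ[ℝ] ℝ)),
    T.CoeffIn S ∧ T.IsIdeal C ∧ (∀ v ∈ T.val, a ≤ T.disc v) ∧ T.thr C a = x}

end

end MldAcc
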