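import Pool.Agent.MldAcc.Toric

set_option autoImplicit false

/-!
# MP_fa3f7f_ag: the ascending chain condition for minimal log discrepancies of toric triples

`mldSet n S` is the set of the minimal log discrepancies at the fixed point of all `n`-dimensional
log canonical toric triples `(X, B, ∏_j 𝔞_j^{r_j})` with all coefficients of `B` and all exponents
`r_j` in `S`; `X` runs over all affine toric varieties with a fixed point, and the number of the
monomial ideals is arbitrary. If `S` satisfies the descending chain condition then `mldSet n S`
satisfies the ascending chain condition.
-/

namespace MldAcc.IdealsResult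

open MldAcc

theorem result (n : ℕ) (S : Set ℝ) (hS : S.IsWF) (x : ℕ → ℝ) (hx : ∀ k, x k ∈ mldSet n S) :
    ¬ StrictMono x :=
  acc_mld hS x hx

end MldAcc.IdealsResult
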