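import Mathlib

/-!
# Recurrence for sequences of subgroups of `ℝ^d` which contain `ℤ^d`
-/

namespace MldAcc

open Filter Topology

section general

variable {E : Type*} [NormedAddCommGroup E] [NormedSpace ℝ E] [FiniteDimensional ℝ E]

/-- A closed subgroup which contains no line of `W` is discrete in `W`. -/
theorem discrete_part (H : AddSubgroup E) (hH : IsClosed (H : Set E)) (W : Submodule ℝ E)
    (hW : ∀ v ∈ W, (∀ t : ℝ, t • v ∈ H) → v = 0) :
    ∃ r : ℝ, 0 < r ∧ ∀ h ∈ H, h ∈ W → ‖h‖ < r → h = 0 := by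
  have : ProperSpace E := FiniteDimensional.proper ℝ E
  by_contra hcon
  push Not at hcon
  have h1 : ∀ n : ℕ, ∃ h ∈ H, h ∈ W ∧ ‖h‖ < 1 / ((n : ℝ) + 1) ∧ h ≠ 0 :=
    fun n => hcon _ (by positivity)
  choose h hhH hhW hhr hh0 using h1
  have hnorm : ∀ n, 0 < ‖h n‖ := fun n => norm_pos_iff.2 (hh0 n)
  set u : ℕ → E := fun n => ‖h n‖⁻¹ • h n with hu
  have hu1 : ∀ n, u n ∈ Metric.sphere (0 : E) 1 := by
    intro n
    rw [mem_sphere_zero_iff_norm, hu]
    simp only [norm_smul, norm_inv, norm_norm]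
    exact inv_mul_cancel₀ (hnorm n).ne'
  obtain ⟨v, hv, φ, hφ, hlim⟩ := (isCompact_sphere (0 : E) 1).tendsto_subseq hu1
  have hh : Tendsto (fun n => ‖h (φ n)‖) atTop (𝓝 0) := by
    have h2 : Tendsto (fun n => ‖h n‖) atTop (𝓝 0) :=
      squeeze_zero (fun n => norm_nonneg _) (fun n => (hhr n).le)
        tendsto_one_div_add_atTop_nhds_zero_nat
    exact h2.comp hφ.tendsto_atTop
  have hvW : v ∈ W := by
    have hcl : IsClosed (W : Set E) := W.closed_of_finiteDimensional
    exact hcl.mem_of_tendsto hlim (Eventually.of_forall fun n => W.smul_mem _ (hhW _))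
  have hvH : ∀ t : ℝ, t • v ∈ H := by
    intro t
    have h3 : Tendsto (fun n => t • u (φ n)) atTop (𝓝 (t • v)) := hlim.const_smul t
    have h4 : Tendsto (fun n => ⌊t / ‖h (φ n)‖⌋ • h (φ n)) atTop (𝓝 (t • v)) := by
      refine tendsto_of_tendsto_of_dist h3 ?_
      refine squeeze_zero (fun n => dist_nonneg) (fun n => ?_) hh
      have hn := hnorm (φ n)
      have e1 : t • u (φ n) - ⌊t / ‖h (φ n)‖⌋ • h (φ n) =
          Int.fract (t / ‖h (φ n)‖) • h (φ n) := by
        rw [hu, smul_smul, ← Int.cast_smul_eq_zsmul ℝ, ← sub_smul, Int.fract, div_eq_mul_inv]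
      rw [dist_eq_norm, e1, norm_smul, Real.norm_of_nonneg (Int.fract_nonneg _)]
      exact mul_le_of_le_one_left hn.le (Int.fract_lt_one _).le
    exact hH.mem_of_tendsto h4 (Eventually.of_forall fun n => H.zsmul_mem (hhH _) _)
  have h5 := hW v hvW hvH
  rw [h5, mem_sphere_zero_iff_norm, norm_zero] at hv
  exact zero_ne_one hv

/-- The quotient of a finite dimensional space by a closed subgroup has no small subgroups. -/
theorem noSmall (H : AddSubgroup E) (hH : IsClosed (H : Set E)) :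
    ∃ δ : ℝ, 0 < δ ∧ ∀ x ∉ H, ∃ s : ℕ, ∀ h ∈ H, δ ≤ ‖s • x - h‖ := by
  let V : Submodule ℝ E :=
    { carrier := {v | ∀ t : ℝ, t • v ∈ H}
      add_mem' := by
        intro a b ha hb t
        rw [smul_add]
        exact H.add_mem (ha t) (hb t)
      zero_mem' := by
        intro t
        rw [smul_zero]
        exact H.zero_mem
      smul_mem' := by
        intro c v hv t
        rw [smul_smul]
        exact hv _ }
  have hVH : ∀ v ∈ V, v ∈ H := by
    intro v hv
    have := hv 1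
    rwa [one_smul] at this
  obtain ⟨W, hVW⟩ := V.exists_isCompl
  obtain ⟨r, hr, hdisc⟩ := discrete_part H hH W (by
    intro v hvW hv
    have h1 : v ∈ V ⊓ W := ⟨hv, hvW⟩
    rw [hVW.inf_eq_bot] at h1
    exact (Submodule.mem_bot ℝ).1 h1)
  set P : E →ₗ[ℝ] E := W.projection V hVW.symm with hP
  have hPW : ∀ x, P x ∈ W := fun x => Submodule.projection_apply_mem hVW.symm x
  have hPV : ∀ x, x - P x ∈ V := fun x => Submodule.sub_projection_mem hVW.symm x
  have hPH : ∀ x ∈ H, P x ∈ H := by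
    intro x hx
    have := H.sub_mem hx (hVH _ (hPV x))
    rwa [sub_sub_cancel] at this
  set Pc : E →L[ℝ] E := LinearMap.toContinuousLinearMap P with hPc
  have hPc' : ∀ x, Pc x = P x := fun x => rfl
  set C : ℝ := ‖Pc‖ with hC
  have hC0 : 0 ≤ C := norm_nonneg _
  refine ⟨r / (4 * (C + 1)), by positivity, ?_⟩
  intro x hx
  by_contra hcon
  push Not at hcon
  choose h hhH hhd using hcon
  set e : ℕ → E := fun m => P ((2 ^ m : ℕ) • x) - P (h (2 ^ m)) with he
  have hCδ : C * (r / (4 * (C + 1))) ≤ r / 4 := by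
    rw [mul_div_assoc', div_le_div_iff₀ (by positivity) (by norm_num)]
    nlinarith
  have hen : ∀ m, ‖e m‖ ≤ r / 4 := by
    intro m
    have h1 : e m = Pc ((2 ^ m : ℕ) • x - h (2 ^ m)) := by
      rw [hPc', map_sub]
    rw [h1]
    refine (Pc.le_opNorm _).trans (le_trans ?_ hCδ)
    exact mul_le_mul_of_nonneg_left (hhd _).le hC0
  have hrec : ∀ m, e (m + 1) = (2 : ℝ) • e m := by
    intro m
    have h1 : e (m + 1) - (2 : ℝ) • e m = (2 : ℤ) • P (h (2 ^ m)) - P (h (2 ^ (m + 1))) := by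
      simp only [he]
      rw [pow_succ, mul_comm (2 ^ m) 2, mul_smul, smul_sub, map_nsmul, ← Nat.cast_smul_eq_nsmul ℝ,
        ← Int.cast_smul_eq_zsmul ℝ]
      push_cast
      abel
    have h2 : (2 : ℤ) • P (h (2 ^ m)) - P (h (2 ^ (m + 1))) = 0 := by
      apply hdisc
      · exact H.sub_mem (H.zsmul_mem (hPH _ (hhH _)) _) (hPH _ (hhH _))
      · exact W.sub_mem (zsmul_mem (hPW _) _) (hPW _)
      · rw [← h1]
        refine (norm_sub_le _ _).trans_lt ?_
        rw [norm_smul]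
        have h3 := hen m
        have h4 := hen (m + 1)
        have h5 : ‖(2 : ℝ)‖ = 2 := by norm_num
        rw [h5]
        linarith
    rw [h2] at h1
    exact sub_eq_zero.1 h1
  have hpow : ∀ m, e m = ((2 : ℝ) ^ m) • e 0 := by
    intro m
    induction m with
    | zero => simp
    | succ m ih => rw [hrec, ih, smul_smul, pow_succ, mul_comm]
  have h0 : e 0 = 0 := by
    by_contra hne
    have hpos : 0 < ‖e 0‖ := norm_pos_iff.2 hne
    obtain ⟨m, hm⟩ := pow_unbounded_of_one_lt (r / 4 / ‖e 0‖) (one_lt_two : (1 : ℝ) < 2)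
    have h1 := hen m
    rw [hpow, norm_smul, norm_pow] at h1
    have h5 : ‖(2 : ℝ)‖ = 2 := by norm_num
    rw [h5] at h1
    rw [div_lt_iff₀ hpos] at hm
    linarith
  apply hx
  have h1 : P x = P (h 1) := by
    have h2 : e 0 = P x - P (h 1) := by
      simp only [he, pow_zero, one_smul]
    rw [h2] at h0
    exact sub_eq_zero.1 h0
  have h2 : x = (x - P x) + P (h 1) := by
    rw [← h1]
    abel
  rw [h2]
  exact H.add_mem (hVH _ (hPV x)) (hPH _ (hhH _))

end general

variable {d : ℕ}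

/-- The points of `ℝ^d` which are limits of points of the groups `N i`. -/
def limGrp (U : Ultrafilter ℕ) (N : ℕ → AddSubgroup (Fin d → ℝ)) : AddSubgroup (Fin d → ℝ) where
  carrier := {x | ∀ ε : ℝ, 0 < ε → ∀ᶠ i in (U : Filter ℕ), ∃ y ∈ N i, ‖x - y‖ < ε}
  add_mem' := by
    intro a b ha hb ε hε
    filter_upwards [ha (ε / 2) (by positivity), hb (ε / 2) (by positivity)] with i h1 h2
    obtain ⟨y, hy, hy'⟩ := h1
    obtain ⟨z, hz, hz'⟩ := h2
    refine ⟨y + z, (N i).add_mem hy hz, ?_⟩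
    have : a + b - (y + z) = (a - y) + (b - z) := by abel
    rw [this]
    exact (norm_add_le _ _).trans_lt (by linarith)
  zero_mem' := by
    intro ε hε
    refine Eventually.of_forall fun i => ⟨0, (N i).zero_mem, ?_⟩
    simpa using hε
  neg_mem' := by
    intro a ha ε hε
    filter_upwards [ha ε hε] with i h1
    obtain ⟨y, hy, hy'⟩ := h1
    refine ⟨-y, (N i).neg_mem hy, ?_⟩
    rw [show -a - -y = -(a - y) by abel, norm_neg]
    exact hy'

theorem mem_limGrp {U : Ultrafilter ℕ} {N : ℕ → AddSubgroup (Fin d → ℝ)} {x : Fin d → ℝ} :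
    x ∈ limGrp U N ↔ ∀ ε : ℝ, 0 < ε → ∀ᶠ i in (U : Filter ℕ), ∃ y ∈ N i, ‖x - y‖ < ε :=
  Iff.rfl

theorem isClosed_limGrp (U : Ultrafilter ℕ) (N : ℕ → AddSubgroup (Fin d → ℝ)) :
    IsClosed (limGrp U N : Set (Fin d → ℝ)) := by
  rw [← isSeqClosed_iff_isClosed]
  intro u x hu hx ε hε
  obtain ⟨n, hn⟩ := (Metric.tendsto_atTop.1 hx (ε / 2) (by positivity))
  have h1 := hn n le_rfl
  rw [dist_eq_norm] at h1
  filter_upwards [hu n (ε / 2) (by positivity)] with i h2
  obtain ⟨y, hy, hy'⟩ := h2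
  refine ⟨y, hy, ?_⟩
  have : x - y = -(u n - x) + (u n - y) := by abel
  rw [this]
  refine (norm_add_le _ _).trans_lt ?_
  rw [norm_neg]
  linarith

/-- The integral part of a vector belongs to every subgroup which contains the unit vectors. -/
theorem floor_mem (N : AddSubgroup (Fin d → ℝ)) (hN : ∀ i, Pi.single i 1 ∈ N) (x : Fin d → ℝ) :
    (fun i => (⌊x i⌋ : ℝ)) ∈ N := by
  have h1 : (fun i => (⌊x i⌋ : ℝ)) = ∑ i, ⌊x i⌋ • (Pi.single i 1 : Fin d → ℝ) := by
    funext l
    rw [Finset.sum_apply, Finset.sum_eq_single l]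
    · simp
    · intro b _ hb
      simp [hb.symm]
    · intro h
      exact absurd (Finset.mem_univ l) h
  rw [h1]
  exact N.sum_mem fun i _ => N.zsmul_mem (hN i) _

/-- Most of the groups `N k` consist of limits of points of the groups `N i`. -/
theorem recur (U : Ultrafilter ℕ) (N : ℕ → AddSubgroup (Fin d → ℝ))
    (hN : ∀ k i, Pi.single i 1 ∈ N k) :
    ∀ᶠ k in (U : Filter ℕ), ∀ x ∈ N k, ∀ ε : ℝ, 0 < ε →
      ∀ᶠ i in (U : Filter ℕ), ∃ y ∈ N i, ‖x - y‖ < ε := by
  set H := limGrp U N with hH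
  have hHZ : ∀ i, (Pi.single i 1 : Fin d → ℝ) ∈ H := by
    intro i ε hε
    refine Eventually.of_forall fun k => ⟨_, hN k i, ?_⟩
    simpa using hε
  obtain ⟨δ, hδ, hns⟩ := noSmall H (isClosed_limGrp U N)
  by_contra hcon
  rw [← Ultrafilter.eventually_not] at hcon
  have h1 : ∀ᶠ k in (U : Filter ℕ), ∃ z : Fin d → ℝ, z ∈ N k ∧ z ∈ Set.Icc (0 : Fin d → ℝ) 1 ∧
      ∀ h ∈ H, δ ≤ ‖z - h‖ := by
    filter_upwards [hcon] with k hk
    push Not at hk
    obtain ⟨x, hx, hx2⟩ := hk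
    have hxH : x ∉ H := by
      intro h
      obtain ⟨ε, hε, h3⟩ := hx2
      obtain ⟨i, hi1, y, hy, hy2⟩ := (h3.and (mem_limGrp.1 h ε hε)).exists
      exact absurd hy2 (not_lt.2 (hi1 y hy))
    obtain ⟨s, hs⟩ := hns x hxH
    refine ⟨s • x - fun i => (⌊(s • x) i⌋ : ℝ), ?_, ?_, ?_⟩
    · exact (N k).sub_mem ((N k).nsmul_mem hx s) (floor_mem _ (hN k) _)
    · constructor
      · intro i
        exact Int.fract_nonneg ((s • x) i)
      · intro i
        exact (Int.fract_lt_one ((s • x) i)).le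
    · intro h hh
      have h4 := hs ((fun i => (⌊(s • x) i⌋ : ℝ)) + h) (H.add_mem (floor_mem _ hHZ _) hh)
      rw [sub_sub]
      exact h4
  obtain ⟨z, hz⟩ := h1.choice
  have hle : ((U.map z : Ultrafilter (Fin d → ℝ)) : Filter (Fin d → ℝ)) ≤
      𝓟 (Set.Icc (0 : Fin d → ℝ) 1) := by
    rw [le_principal_iff]
    exact hz.mono fun k hk => hk.2.1
  obtain ⟨a, _, ha⟩ := isCompact_Icc.ultrafilter_le_nhds _ hle
  have hlim : Tendsto z (U : Filter ℕ) (𝓝 a) := ha
  have haH : a ∈ H := by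
    intro ε hε
    filter_upwards [hz, Metric.tendsto_nhds.1 hlim ε hε] with k hk hk2
    refine ⟨z k, hk.1, ?_⟩
    rw [norm_sub_rev, ← dist_eq_norm]
    exact hk2
  have h5 : ∀ᶠ k in (U : Filter ℕ), False := by
    filter_upwards [hz, Metric.tendsto_nhds.1 hlim δ hδ] with k hk hk2
    have h6 := hk.2.2 a haH
    rw [← dist_eq_norm] at h6
    exact absurd hk2 (not_lt.2 h6)
  exact h5.exists.choose_spec

end MldAcc
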